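import Mathlib

/-!
Every isomorphism between generalized non-coprime graphs respects the subgroups.
-/

set_option autoImplicit false

namespace Pool.Agent.Results.MP_acde3d_al.EveryIso

open Finset

/-- The generalized non-coprime graph of the group `G` with respect to the subgroup `H`. -/
def graph (G : Type*) [Group G] (H : Subgroup G) : SimpleGraph {x : G // x ≠ 1} where
  Adj a b := a ≠ b ∧ Nat.gcd (orderOf a.1) (orderOf b.1) ≠ 1 ∧ (a.1 ∈ H ∨ b.1 ∈ H)
  symm := ⟨fun _ _ h => ⟨h.1.symm, by rw [Nat.gcd_comm]; exact h.2.1, h.2.2.symm⟩⟩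
  loopless := ⟨fun _ h => h.1 rfl⟩

section parity

variable {K : Type*} [Group K] [Fintype K] [DecidableEq K]

theorem even_card_odd : Even (univ.filter fun y : K => y ≠ 1 ∧ ¬ 2 ∣ orderOf y).card := by
  have h : ∑ _y ∈ univ.filter (fun y : K => y ≠ 1 ∧ ¬ 2 ∣ orderOf y), (1 : ZMod 2) = 0 := by
    refine Finset.sum_involution (fun y _ => y⁻¹) ?_ ?_ ?_ ?_
    · intro y _; decide
    · intro y hy _ h
      rw [mem_filter] at hy
      have h1 : y ^ 2 = 1 := by
        rw [pow_two]; nth_rw 1 [← h]; exact inv_mul_cancel y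
      have h2 := orderOf_dvd_of_pow_eq_one h1
      rcases (Nat.dvd_prime Nat.prime_two).1 h2 with h3 | h3
      · exact hy.2.1 (orderOf_eq_one_iff.1 h3)
      · exact hy.2.2 (h3 ▸ dvd_rfl)
    · intro y hy
      rw [mem_filter] at hy ⊢
      exact ⟨mem_univ _, inv_ne_one.2 hy.2.1, by rw [orderOf_inv]; exact hy.2.2⟩
    · intro y _; exact inv_inv y
  rw [sum_const, nsmul_eq_mul, mul_one] at h
  exact (ZMod.natCast_eq_zero_iff_even).1 h

theorem odd_card_even (h : ∃ y : K, 2 ∣ orderOf y) :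
    Odd (univ.filter fun y : K => 2 ∣ orderOf y).card := by
  obtain ⟨y, hy⟩ := h
  have hK : Even (Fintype.card K) := (even_iff_two_dvd).2 (hy.trans (orderOf_dvd_card))
  have h1 := even_card_odd (K := K)
  have h2 : (univ.filter fun y : K => 2 ∣ orderOf y).card +
      (univ.filter fun y : K => y ≠ 1 ∧ ¬ 2 ∣ orderOf y).card + 1 = Fintype.card K := by
    have h3 : (univ.filter fun y : K => ¬ 2 ∣ orderOf y) =
        insert 1 (univ.filter fun y : K => y ≠ 1 ∧ ¬ 2 ∣ orderOf y) := by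
      ext y
      simp only [mem_filter, mem_univ, true_and, mem_insert]
      constructor
      · intro h
        by_cases hy : y = 1
        · exact Or.inl hy
        · exact Or.inr ⟨hy, h⟩
      · rintro (rfl | h)
        · rw [orderOf_one]; decide
        · exact h.2
    have h4 := Finset.card_filter_add_card_filter_not (s := (univ : Finset K))
      (fun y : K => 2 ∣ orderOf y)
    rw [h3, card_insert_of_notMem (by simp), Finset.card_univ] at h4
    omega
  rw [← Nat.not_even_iff_odd]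
  intro h3
  have h4 := (h3.add h1)
  rw [← h2] at hK
  exact (Nat.even_add_one.1 hK) h4

end parity

variable {G : Type*} [Group G] {H : Subgroup G}

theorem adj_iff {a b : {x : G // x ≠ 1}} : (graph G H).Adj a b ↔
    a ≠ b ∧ Nat.gcd (orderOf a.1) (orderOf b.1) ≠ 1 ∧ (a.1 ∈ H ∨ b.1 ∈ H) := Iff.rfl

theorem gcd_self_ne [Finite G] {a : G} (ha : a ≠ 1) : Nat.gcd (orderOf a) (orderOf a) ≠ 1 := by
  rw [Nat.gcd_self]
  exact fun h => ha (orderOf_eq_one_iff.1 h)

theorem orderOf_two {z : G} (hz : z ≠ 1) (h : z⁻¹ = z) : orderOf z = 2 := by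
  refine orderOf_eq_prime ?_ hz
  rw [pow_two]; nth_rw 1 [← h]; exact inv_mul_cancel z

theorem two_gcd {n : ℕ} : Nat.gcd 2 n ≠ 1 ↔ 2 ∣ n := by
  constructor
  · intro h
    by_contra h1
    exact h ((Nat.Prime.coprime_iff_not_dvd Nat.prime_two).2 h1)
  · intro h h1
    rw [Nat.gcd_eq_left h] at h1
    omega

/-- if the involution `x` is the only element of even order, there are no further elements -/
theorem exists_even [Finite G] {x g : G} (hx : orderOf x = 2) (hg : g ≠ 1) (hgx : g ≠ x) :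
    ∃ y : G, y ≠ x ∧ 2 ∣ orderOf y := by
  by_cases hge : 2 ∣ orderOf g
  · exact ⟨g, hgx, hge⟩
  by_cases hc : g * x * g⁻¹ = x
  · have hcomm : Commute g x := by
      rw [mul_inv_eq_iff_eq_mul] at hc
      exact hc
    have hcop : (orderOf g).Coprime (orderOf x) := by
      rw [hx]
      exact (Nat.Prime.coprime_iff_not_dvd Nat.prime_two).2 hge |>.symm
    refine ⟨g * x, fun h => hg (by simpa using h), ?_⟩
    rw [hcomm.orderOf_mul_eq_mul_orderOf_of_coprime hcop, hx]
    exact dvd_mul_left _ _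
  · refine ⟨g * x * g⁻¹, hc, ?_⟩
    have : orderOf (g * x * g⁻¹) = orderOf x := by
      have := orderOf_injective (MulAut.conj g).toMonoidHom (MulAut.conj g).injective x
      simpa using this
    rw [this, hx]


variable {G' : Type*} [Group G'] {H' : Subgroup G'}

/-- elements of `H` of order greater than two go into `H'` -/
theorem case_one [Finite G] [Finite G'] (φ : graph G H ≃g graph G' H') (x : {x : G // x ≠ 1})
    (hx : x.1 ∈ H) (hx2 : x.1⁻¹ ≠ x.1) : (φ x).1 ∈ H' := by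
  by_contra hz
  obtain ⟨x', hx'⟩ : ∃ x' : {x : G // x ≠ 1}, x'.1 = x.1⁻¹ := ⟨⟨x.1⁻¹, inv_ne_one.2 x.2⟩, rfl⟩
  have hxx' : x ≠ x' := fun h => hx2 (by rw [← hx', ← h])
  have hx'H : x'.1 ∈ H := by rw [hx']; exact H.inv_mem hx
  have hord : orderOf x'.1 = orderOf x.1 := by rw [hx', orderOf_inv]
  have hadj : (graph G H).Adj x x' := adj_iff.2 ⟨hxx', by rw [hord]; exact gcd_self_ne x.2, Or.inl hx⟩
  have hadj' : (graph G' H').Adj (φ x) (φ x') := φ.map_adj_iff.2 hadj
  have hy : (φ x').1 ∈ H' := by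
    rcases (adj_iff.1 hadj').2.2 with h | h
    · exact absurd h hz
    · exact h
  -- closed twins
  have key : ∀ w : {x : G' // x ≠ 1}, w.1 ∉ H' → w ≠ φ x →
      Nat.gcd (orderOf (φ x').1) (orderOf w.1) = 1 := by
    intro w hw hwz
    by_contra hg
    have h1 : (graph G' H').Adj (φ x') w := adj_iff.2 ⟨fun h => hw (h ▸ hy), hg, Or.inl hy⟩
    obtain ⟨v, rfl⟩ := φ.surjective w
    rw [φ.map_adj_iff] at h1
    have h2 : (graph G H).Adj x v := by
      refine adj_iff.2 ⟨fun h => hwz (by rw [h]), ?_, Or.inl hx⟩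
      rw [← hord]; exact (adj_iff.1 h1).2.1
    have h3 := (adj_iff.1 (φ.map_adj_iff.2 h2)).2.2
    rcases h3 with h3 | h3
    · exact hz h3
    · exact hw h3
  have hyz : Nat.gcd (orderOf (φ x').1) (orderOf (φ x).1) ≠ 1 := by
    rw [Nat.gcd_comm]; exact (adj_iff.1 hadj').2.1
  have hzinv : (φ x).1⁻¹ = (φ x).1 := by
    by_contra h
    have h1 := key ⟨(φ x).1⁻¹, inv_ne_one.2 (φ x).2⟩ (fun h2 => hz (H'.inv_mem_iff.1 h2))
      (fun h2 => h (congrArg Subtype.val h2))
    rw [orderOf_inv] at h1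
    exact hyz h1
  have hz2 := orderOf_two (φ x).2 hzinv
  have hyeven : 2 ∣ orderOf (φ x').1 := by
    rw [hz2, Nat.gcd_comm] at hyz
    exact two_gcd.1 hyz
  -- an involution of `H'`
  obtain ⟨t, ht, htH⟩ : ∃ t : G', orderOf t = 2 ∧ t ∈ H' := by
    refine ⟨(φ x').1 ^ (orderOf (φ x').1 / 2), ?_, H'.pow_mem hy _⟩
    exact orderOf_pow_orderOf_div (orderOf_pos _).ne' hyeven
  have ht1 : t ≠ 1 := by
    intro h; rw [h, orderOf_one] at ht; omega
  have hcon : ∀ w : G', w ∉ H' → orderOf w = 2 → w = (φ x).1 := by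
    intro w hw hw2
    by_contra h
    have hw1 : w ≠ 1 := fun h => hw (h ▸ H'.one_mem)
    have h1 := key ⟨w, hw1⟩ hw (fun h2 => h (congrArg Subtype.val h2))
    rw [hw2, Nat.gcd_comm] at h1
    exact two_gcd.2 hyeven h1
  have hconj : t * (φ x).1 * t⁻¹ = (φ x).1 := by
    refine hcon _ ?_ ?_
    · intro h
      have h2 := H'.mul_mem (H'.mul_mem (H'.inv_mem htH) h) htH
      apply hz
      convert h2 using 1
      group
    · have := orderOf_injective (MulAut.conj t).toMonoidHom (MulAut.conj t).injective (φ x).1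
      rw [← hz2, ← this]
      simp
  have hcomm : Commute t (φ x).1 := by
    rw [mul_inv_eq_iff_eq_mul] at hconj
    exact hconj
  have htz : t * (φ x).1 = (φ x).1 := by
    refine hcon _ (fun h => hz ((H'.mul_mem_cancel_left htH).1 h)) ?_
    refine orderOf_eq_prime ?_ (fun h => ?_)
    · rw [hcomm.mul_pow, ← ht, pow_orderOf_eq_one, ht, ← hz2, pow_orderOf_eq_one, one_mul]
    · have : (φ x).1 = t⁻¹ := eq_inv_of_mul_eq_one_right h
      exact hz (this ▸ H'.inv_mem htH)
  exact ht1 (by simpa using htz)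

/-- an involution `x` of `H` whose image has order greater than two -/
theorem case_two_a [Finite G] [Finite G'] (φ : graph G H ≃g graph G' H') (x : {x : G // x ≠ 1})
    (hx : x.1 ∈ H) (hx2 : orderOf x.1 = 2) (hzz : (φ x).1⁻¹ ≠ (φ x).1) : (φ x).1 ∈ H' := by
  by_contra hz
  obtain ⟨z', hz'⟩ : ∃ z' : {x : G' // x ≠ 1}, z'.1 = (φ x).1⁻¹ :=
    ⟨⟨(φ x).1⁻¹, inv_ne_one.2 (φ x).2⟩, rfl⟩
  have hzz' : φ x ≠ z' := fun h => hzz (by rw [← hz', ← h])
  have hz'H : z'.1 ∉ H' := by rw [hz']; exact fun h => hz (H'.inv_mem_iff.1 h)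
  have hord : orderOf z'.1 = orderOf (φ x).1 := by rw [hz', orderOf_inv]
  obtain ⟨w, rfl⟩ := φ.surjective z'
  have twins : ∀ u, (graph G H).Adj x u ↔ (graph G H).Adj w u := by
    intro u
    rw [← φ.map_adj_iff, ← φ.map_adj_iff (v := w), adj_iff, adj_iff, hord]
    constructor
    · rintro ⟨h1, h2, h3⟩
      rcases h3 with h3 | h3
      · exact absurd h3 hz
      · exact ⟨fun h => hz'H (by rw [h]; exact h3), h2, Or.inr h3⟩
    · rintro ⟨h1, h2, h3⟩
      rcases h3 with h3 | h3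
      · exact absurd h3 hz'H
      · exact ⟨fun h => hz (by rw [h]; exact h3), h2, Or.inr h3⟩
  have hxw : x ≠ w := fun h => hzz' (by rw [h])
  have hwodd : ¬ 2 ∣ orderOf w.1 := by
    intro h
    have h1 : (graph G H).Adj x w := adj_iff.2 ⟨hxw, by rw [hx2]; exact two_gcd.2 h, Or.inl hx⟩
    exact (graph G H).loopless.irrefl w ((twins w).1 h1)
  have hwinv : w.1⁻¹ ≠ w.1 := by
    intro h
    exact hwodd (by rw [orderOf_two w.2 h])
  have hwH : w.1 ∉ H := by
    intro hw
    have h1 : (graph G H).Adj w ⟨w.1⁻¹, inv_ne_one.2 w.2⟩ := by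
      refine adj_iff.2 ⟨fun h => hwinv (congrArg Subtype.val h).symm, ?_, Or.inl hw⟩
      rw [orderOf_inv]; exact gcd_self_ne w.2
    have h2 := (adj_iff.1 ((twins _).2 h1)).2.1
    rw [hx2, orderOf_inv] at h2
    exact hwodd (two_gcd.1 h2)
  obtain ⟨y, hy, hy2⟩ := exists_even hx2 w.2 (fun h => hxw (Subtype.ext h).symm)
  have hy1 : y ≠ 1 := by rintro rfl; rw [orderOf_one] at hy2; omega
  have h1 : (graph G H).Adj x ⟨y, hy1⟩ := by
    refine adj_iff.2 ⟨fun h => hy (congrArg Subtype.val h).symm, ?_, Or.inl hx⟩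
    rw [hx2]; exact two_gcd.2 hy2
  have h2 := adj_iff.1 ((twins _).1 h1)
  have hyH : y ∈ H := by
    rcases h2.2.2 with h | h
    · exact absurd h hwH
    · exact h
  obtain ⟨p, hp, hpd⟩ := Nat.exists_prime_and_dvd h2.2.1
  have hpw : p ∣ orderOf w.1 := hpd.trans (Nat.gcd_dvd_left _ _)
  have hpy : p ∣ orderOf y := hpd.trans (Nat.gcd_dvd_right _ _)
  have hu : orderOf (y ^ (orderOf y / p)) = p := orderOf_pow_orderOf_div (orderOf_pos _).ne' hpy
  have hu1 : y ^ (orderOf y / p) ≠ 1 := by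
    intro h; rw [h, orderOf_one] at hu; exact hp.one_lt.ne hu
  have h3 : (graph G H).Adj w ⟨y ^ (orderOf y / p), hu1⟩ := by
    refine adj_iff.2 ⟨fun h => hwH ?_, ?_, Or.inr (H.pow_mem hyH _)⟩
    · rw [h]; exact H.pow_mem hyH _
    · show Nat.gcd (orderOf w.1) (orderOf (y ^ (orderOf y / p))) ≠ 1
      rw [hu, Nat.gcd_eq_right hpw]
      exact hp.one_lt.ne'
  have h4 := (adj_iff.1 ((twins _).2 h3)).2.1
  rw [hx2] at h4
  have h5 := two_gcd.1 h4
  rw [show orderOf (⟨y ^ (orderOf y / p), hu1⟩ : {x : G // x ≠ 1}).1 = p from hu] at h5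
  rw [(Nat.prime_dvd_prime_iff_eq Nat.prime_two hp).1 h5] at hwodd
  exact hwodd hpw

/-- an involution `x` of `H` whose image has order two -/
theorem case_two_b [Finite G] [Finite G'] (hH' : H' ≠ ⊥) (φ : graph G H ≃g graph G' H')
    (x : {x : G // x ≠ 1})
    (hx : x.1 ∈ H) (hx2 : orderOf x.1 = 2) (hz2 : orderOf (φ x).1 = 2) : (φ x).1 ∈ H' := by
  classical
  by_contra hz
  have : Fintype G := Fintype.ofFinite G
  have : Fintype G' := Fintype.ofFinite G'
  have e1 : (univ.filter fun y => (graph G H).Adj x y).card =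
      (univ.filter fun y => (graph G' H').Adj (φ x) y).card := by
    rw [← card_map φ.toEquiv.toEmbedding]
    congr 1
    ext w
    obtain ⟨v, rfl⟩ := φ.surjective w
    simp only [mem_map, mem_filter, mem_univ, true_and, φ.map_adj_iff]
    constructor
    · rintro ⟨u, hu, huv⟩
      have : u = v := φ.injective huv
      rwa [← this]
    · intro h; exact ⟨v, h, rfl⟩
  have e2 : (univ.filter fun y => (graph G H).Adj x y).card + 1 =
      (univ.filter fun y : G => 2 ∣ orderOf y).card := by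
    have hmem : x.1 ∈ univ.filter fun y : G => 2 ∣ orderOf y := by
      rw [mem_filter, hx2]; exact ⟨mem_univ _, dvd_rfl⟩
    rw [← card_erase_add_one hmem, ← card_map (Function.Embedding.subtype _)]
    congr 2
    ext y
    simp only [mem_map, mem_filter, mem_univ, true_and, Function.Embedding.subtype_apply,
      mem_erase, adj_iff, hx2, two_gcd]
    constructor
    · rintro ⟨⟨u, hu⟩, ⟨h1, h2, -⟩, rfl⟩
      exact ⟨fun h => h1 (Subtype.ext h.symm), h2⟩
    · rintro ⟨h1, h2⟩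
      have hy1 : y ≠ 1 := by rintro rfl; rw [orderOf_one] at h2; omega
      exact ⟨⟨y, hy1⟩, ⟨fun h => h1 (congrArg Subtype.val h).symm, h2, Or.inl hx⟩, rfl⟩
  have e3 : (univ.filter fun y => (graph G' H').Adj (φ x) y).card =
      (univ.filter fun y : H' => 2 ∣ orderOf y).card := by
    rw [← card_map (Function.Embedding.subtype _), ← card_map (s := univ.filter fun y : H' => _)
      (Function.Embedding.subtype _)]
    congr 1
    ext y
    simp only [mem_map, mem_filter, mem_univ, true_and, Function.Embedding.subtype_apply,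
      adj_iff, hz2, two_gcd]
    constructor
    · rintro ⟨⟨u, hu⟩, ⟨h1, h2, h3⟩, rfl⟩
      rcases h3 with h3 | h3
      · exact absurd h3 hz
      · exact ⟨⟨u, h3⟩, by rw [← Subgroup.orderOf_coe]; exact h2, rfl⟩
    · rintro ⟨u, hu, rfl⟩
      rw [← Subgroup.orderOf_coe] at hu
      have hy1 : (u : G') ≠ 1 := by intro h; rw [h, orderOf_one] at hu; omega
      exact ⟨⟨u, hy1⟩, ⟨fun h => hz (by rw [h]; exact u.2), hu, Or.inr u.2⟩, rfl⟩
  have o1 := odd_card_even (K := G) ⟨x.1, by rw [hx2]⟩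
  rw [← e2, e1, e3] at o1
  have hno : ¬ ∃ y : H', 2 ∣ orderOf y := by
    intro h
    have o2 := odd_card_even (K := H') h
    exact (Nat.not_even_iff_odd.2 o1) (o2.add_one)
  have hzero : (univ.filter fun y : H' => 2 ∣ orderOf y).card = 0 := by
    rw [card_eq_zero, filter_eq_empty_iff]
    intro y _ hy
    exact hno ⟨y, hy⟩
  have hnb : ∀ y, ¬ (graph G H).Adj x y := by
    rw [← e3, ← e1, card_eq_zero, filter_eq_empty_iff] at hzero
    intro y; exact hzero (mem_univ y)
  have hall : ∀ g : {x : G // x ≠ 1}, g = x := by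
    intro g
    by_contra hg
    obtain ⟨y, hy, hy2⟩ := exists_even hx2 g.2 (fun h => hg (Subtype.ext h))
    have hy1 : y ≠ 1 := by rintro rfl; rw [orderOf_one] at hy2; omega
    refine hnb ⟨y, hy1⟩ (adj_iff.2 ⟨fun h => hy (congrArg Subtype.val h).symm, ?_, Or.inl hx⟩)
    rw [hx2]; exact two_gcd.2 hy2
  obtain ⟨a, ha⟩ := Subgroup.ne_bot_iff_exists_ne_one.1 hH'
  obtain ⟨h', hh', hh1⟩ : ∃ h' : G', h' ∈ H' ∧ h' ≠ 1 := ⟨a.1, a.2, fun h => ha (Subtype.ext h)⟩
  obtain ⟨v, hv⟩ := φ.surjective ⟨h', hh1⟩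
  rw [hall v] at hv
  exact hz (by rw [hv]; exact hh')

theorem one_direction [Finite G] [Finite G'] (hH' : H' ≠ ⊥) (φ : graph G H ≃g graph G' H')
    (x : {x : G // x ≠ 1}) (hx : x.1 ∈ H) : (φ x).1 ∈ H' := by
  by_cases hx2 : x.1⁻¹ = x.1
  · have hx2' := orderOf_two x.2 hx2
    by_cases hzz : (φ x).1⁻¹ = (φ x).1
    · exact case_two_b hH' φ x hx hx2' (orderOf_two (φ x).2 hzz)
    · exact case_two_a φ x hx hx2' hzz
  · exact case_one φ x hx hx2

/-- **Theorem.** Every isomorphism between generalized non-coprime graphs `Γ_{G,H}` and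
`Γ_{G',H'}` maps `H \ {e}` onto `H' \ {e'}`. -/
theorem result {G G' : Type*} [Group G] [Group G'] [Finite G] [Finite G'] (H : Subgroup G)
    (H' : Subgroup G') (hH : H ≠ ⊥) (hH' : H' ≠ ⊥) (φ : graph G H ≃g graph G' H') :
    φ '' {x | x.1 ∈ H} = {y | y.1 ∈ H'} := by
  ext y
  constructor
  · rintro ⟨x, hx, rfl⟩
    exact one_direction hH' φ x hx
  · intro hy
    exact ⟨φ.symm y, one_direction hH φ.symm y hy, φ.apply_symm_apply y⟩

end Pool.Agent.Results.MP_acde3d_al.EveryIso
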